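import Pool.Agent.Run7.h116.Met.SUP
import Pool.Agent.Run7.h146.Met.I3

/-! Piece NVP: superposition of independent Poisson processes. -/

set_option autoImplicit false
set_option linter.unusedSectionVars false
set_option linter.deprecated false

open MeasureTheory Filter Topology ENNReal

namespace Run7.h975.Met

open Run7.h146.Met Run7.h116.Met

section gen

variable {α : Type*} [MeasurableSpace α]

open Classical in
/-- the union -/
noncomputable def un (F F' : Finset α) : Finset α := F ∪ F'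

theorem un_ins_left (x : α) (F F' : Finset α) : un (ins x F) F' = ins x (un F F') := by
  classical
  unfold un ins
  ext a
  simp only [Finset.mem_union, Finset.mem_insert]
  tauto

theorem un_ins_right (x : α) (F F' : Finset α) : un F (ins x F') = ins x (un F F') := by
  classical
  unfold un ins
  ext a
  simp only [Finset.mem_union, Finset.mem_insert]
  tauto

theorem un_comm (F F' : Finset α) : un F F' = un F' F := by
  classical
  unfold un
  ext a
  simp only [Finset.mem_union]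
  tauto

theorem im_append {k l : ℕ} (y : Fin k → α) (y' : Fin l → α) :
    im (k + l) (Fin.append y y') = un (im k y) (im l y') := by
  classical
  ext a
  unfold im un
  simp only [Finset.mem_image, Finset.mem_univ, true_and, Finset.mem_union]
  constructor
  · rintro ⟨i, hi⟩
    induction i using Fin.addCases with
    | left i => rw [Fin.append_left] at hi; exact Or.inl ⟨i, hi⟩
    | right i => rw [Fin.append_right] at hi; exact Or.inr ⟨i, hi⟩
  · rintro (⟨i, hi⟩ | ⟨i, hi⟩)
    · exact ⟨Fin.castAdd l i, by rw [Fin.append_left]; exact hi⟩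
    · exact ⟨Fin.natAdd k i, by rw [Fin.append_right]; exact hi⟩

theorem meas_append (k l : ℕ) :
    Measurable fun p : (Fin k → α) × (Fin l → α) => (Fin.append p.1 p.2 : Fin (k + l) → α) := by
  rw [measurable_pi_iff]
  intro i
  induction i using Fin.addCases with
  | left i =>
    simp only [Fin.append_left]
    exact (measurable_pi_apply i).comp measurable_fst
  | right i =>
    simp only [Fin.append_right]
    exact (measurable_pi_apply i).comp measurable_snd

theorem exists_im (F : Finset α) : ∃ (k : ℕ) (y : Fin k → α), im k y = F := by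
  classical
  refine ⟨F.card, fun i => (F.equivFin.symm i : α), ?_⟩
  ext a
  unfold im
  simp only [Finset.mem_image, Finset.mem_univ, true_and]
  constructor
  · rintro ⟨i, rfl⟩
    exact (F.equivFin.symm i).2
  · intro ha
    exact ⟨F.equivFin ⟨a, ha⟩, by simp⟩

theorem meas_un_im {G : Finset α → ℝ≥0∞} (hG : Measurable G) (k l : ℕ) :
    Measurable fun p : (Fin k → α) × (Fin l → α) => G (un (im k p.1) (im l p.2)) := by
  have h := (hG.comp (meas_im (k + l))).comp (meas_append (α := α) k l)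
  simpa only [Function.comp_def, im_append] using h

theorem meas_un_ins {G : Finset α → ℝ≥0∞} (hG : Measurable G) (k l : ℕ) :
    Measurable fun p : α × ((Fin k → α) × (Fin l → α)) =>
      G (ins p.1 (un (im k p.2.1) (im l p.2.2))) := by
  have h0 : Measurable fun p : α × ((Fin k → α) × (Fin l → α)) =>
      (p.1, (Fin.append p.2.1 p.2.2 : Fin (k + l) → α)) :=
    measurable_fst.prodMk ((meas_append k l).comp measurable_snd)
  have h := (tm_iff.1 (meas_insG hG) (k + l)).comp h0
  simpa only [Function.comp_def, im_append] using h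

theorem meas_un {G : Finset α → ℝ≥0∞} (hG : Measurable G) (F : Finset α) :
    Measurable fun F' => G (un F F') := by
  obtain ⟨k, y, rfl⟩ := exists_im F
  rw [meas_fun]
  intro l
  exact (meas_un_im hG k l).comp (measurable_const.prodMk measurable_id)

theorem meas_aa_un (ν : Measure α) [IsFiniteMeasure ν] {G : Finset α → ℝ≥0∞} (hG : Measurable G)
    (l : ℕ) : Measurable fun F => aa ν (fun F' => G (un F F')) l := by
  rw [meas_fun]
  intro k
  unfold aa
  exact (meas_un_im hG k l).lintegral_prod_right'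

/-- the integral over `k` points of the first and `l` points of the second kind -/
noncomputable def bb (ν₁ ν₂ : Measure α) (G : Finset α → ℝ≥0∞) (k l : ℕ) : ℝ≥0∞ :=
  aa ν₁ (fun F => aa ν₂ (fun F' => G (un F F')) l) k

variable (ν₁ ν₂ : Measure α) [IsFiniteMeasure ν₁] [IsFiniteMeasure ν₂]

theorem bb_succ_left {G : Finset α → ℝ≥0∞} (hG : Measurable G) (k l : ℕ) :
    bb ν₁ ν₂ G (k + 1) l = ∫⁻ x, bb ν₁ ν₂ (fun F => G (ins x F)) k l ∂ν₁ := by
  unfold bb
  rw [aa_succ ν₁ (meas_aa_un ν₂ hG l)]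
  simp only [un_ins_left]

theorem bb_succ_right {G : Finset α → ℝ≥0∞} (hG : Measurable G) (k l : ℕ) :
    bb ν₁ ν₂ G k (l + 1) = ∫⁻ x, bb ν₁ ν₂ (fun F => G (ins x F)) k l ∂ν₂ := by
  unfold bb
  have h1 : ∀ F, aa ν₂ (fun F' => G (un F F')) (l + 1) =
      ∫⁻ x, aa ν₂ (fun F' => G (ins x (un F F'))) l ∂ν₂ := by
    intro F
    rw [aa_succ ν₂ (meas_un hG F)]
    simp only [un_ins_right]
  simp only [h1]
  unfold aa
  have h2 : Measurable fun p : ((Fin k → α) × α) × (Fin l → α) =>
      G (ins p.1.2 (un (im k p.1.1) (im l p.2))) := by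
    have h3 : Measurable fun p : ((Fin k → α) × α) × (Fin l → α) => (p.1.2, (p.1.1, p.2)) :=
      (measurable_snd.comp measurable_fst).prodMk
        ((measurable_fst.comp measurable_fst).prodMk measurable_snd)
    exact (meas_un_ins hG k l).comp h3
  exact lintegral_lintegral_swap h2.lintegral_prod_right'.aemeasurable

theorem meas_bb {G : Finset α → ℝ≥0∞} (hG : Measurable G) (k l : ℕ) :
    Measurable fun x => bb ν₁ ν₂ (fun F => G (ins x F)) k l := by
  unfold bb aa
  have h2 : Measurable fun p : (α × (Fin k → α)) × (Fin l → α) =>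
      G (ins p.1.1 (un (im k p.1.2) (im l p.2))) := by
    have h3 : Measurable fun p : (α × (Fin k → α)) × (Fin l → α) => (p.1.1, (p.1.2, p.2)) :=
      (measurable_fst.comp measurable_fst).prodMk
        ((measurable_snd.comp measurable_fst).prodMk measurable_snd)
    exact (meas_un_ins hG k l).comp h3
  exact h2.lintegral_prod_right'.lintegral_prod_right'

theorem split' (n : ℕ) : ∀ G : Finset α → ℝ≥0∞, Measurable G →
    aa (ν₁ + ν₂) G n = ∑ ij ∈ Finset.HasAntidiagonal.antidiagonal n,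
      (n.choose ij.1 : ℝ≥0∞) * bb ν₁ ν₂ G ij.1 ij.2 := by
  induction n with
  | zero =>
    intro G hG
    have h0 : ∀ (μ : Measure α) (G : Finset α → ℝ≥0∞), aa μ G 0 = G ∅ := by
      intro μ G
      unfold aa
      rw [Measure.pi_of_empty]
      rw [lintegral_dirac]
      congr 1
    unfold bb
    simp only [Finset.Nat.antidiagonal_zero, Finset.sum_singleton, Nat.choose_self, Nat.cast_one,
      one_mul, h0]
    simp [un]
  | succ n ih =>
    intro G hG
    rw [aa_succ (ν₁ + ν₂) hG n, lintegral_add_measure]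
    have e : ∀ x, aa (ν₁ + ν₂) (fun F => G (ins x F)) n =
        ∑ ij ∈ Finset.HasAntidiagonal.antidiagonal n,
          (n.choose ij.1 : ℝ≥0∞) * bb ν₁ ν₂ (fun F => G (ins x F)) ij.1 ij.2 :=
      fun x => ih _ (tm_sec (meas_insG hG) x)
    simp only [e]
    have e1 : ∫⁻ x, ∑ ij ∈ Finset.HasAntidiagonal.antidiagonal n,
        (n.choose ij.1 : ℝ≥0∞) * bb ν₁ ν₂ (fun F => G (ins x F)) ij.1 ij.2 ∂ν₁ =
        ∑ ij ∈ Finset.HasAntidiagonal.antidiagonal n,
          (n.choose ij.1 : ℝ≥0∞) * bb ν₁ ν₂ G (ij.1 + 1) ij.2 := by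
      rw [lintegral_finset_sum _ (fun ij _ => (meas_bb ν₁ ν₂ hG ij.1 ij.2).const_mul _)]
      refine Finset.sum_congr rfl fun ij _ => ?_
      rw [lintegral_const_mul _ (meas_bb ν₁ ν₂ hG ij.1 ij.2), bb_succ_left ν₁ ν₂ hG]
    have e2 : ∫⁻ x, ∑ ij ∈ Finset.HasAntidiagonal.antidiagonal n,
        (n.choose ij.1 : ℝ≥0∞) * bb ν₁ ν₂ (fun F => G (ins x F)) ij.1 ij.2 ∂ν₂ =
        ∑ ij ∈ Finset.HasAntidiagonal.antidiagonal n,
          (n.choose ij.1 : ℝ≥0∞) * bb ν₁ ν₂ G ij.1 (ij.2 + 1) := by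
      rw [lintegral_finset_sum _ (fun ij _ => (meas_bb ν₁ ν₂ hG ij.1 ij.2).const_mul _)]
      refine Finset.sum_congr rfl fun ij _ => ?_
      rw [lintegral_const_mul _ (meas_bb ν₁ ν₂ hG ij.1 ij.2), bb_succ_right ν₁ ν₂ hG]
    rw [e1, e2, Finset.sum_antidiagonal_choose_succ_mul (fun i j => bb ν₁ ν₂ G i j) n, add_comm]
    congr 1
    refine Finset.sum_congr rfl fun ij hij => ?_
    rw [Finset.HasAntidiagonal.mem_antidiagonal] at hij
    rw [Nat.choose_symm_of_eq_add hij.symm]

theorem tsum_anti (f : ℕ → ℕ → ℝ≥0∞) :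
    ∑' k, ∑' l, f k l = ∑' n, ∑ ij ∈ Finset.HasAntidiagonal.antidiagonal n, f ij.1 ij.2 := by
  rw [← ENNReal.tsum_prod (f := f)]
  rw [← (Finset.HasAntidiagonal.sigmaAntidiagonalEquivProd (A := ℕ)).tsum_eq, ENNReal.tsum_sigma']
  refine tsum_congr fun n => ?_
  rw [← Finset.tsum_subtype (Finset.HasAntidiagonal.antidiagonal n)
    (fun ij : ℕ × ℕ => f ij.1 ij.2)]
  rfl

theorem cn_choose {n i j : ℕ} (h : i + j = n) :
    cn (ν₁ + ν₂) n * (n.choose i : ℝ≥0∞) = cn ν₁ i * cn ν₂ j := by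
  have hE : ENNReal.ofReal (Real.exp (-((ν₁ + ν₂) Set.univ).toReal)) =
      ENNReal.ofReal (Real.exp (-(ν₁ Set.univ).toReal)) *
        ENNReal.ofReal (Real.exp (-(ν₂ Set.univ).toReal)) := by
    rw [← ENNReal.ofReal_mul (Real.exp_nonneg _), ← Real.exp_add, Measure.add_apply,
      ENNReal.toReal_add (measure_ne_top _ _) (measure_ne_top _ _)]
    congr 2
    ring
  unfold cn
  rw [hE]
  simp only [div_eq_mul_inv]
  have hch := choose_div n i j h
  calc ENNReal.ofReal (Real.exp (-(ν₁ Set.univ).toReal)) *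
        ENNReal.ofReal (Real.exp (-(ν₂ Set.univ).toReal)) * (n.factorial : ℝ≥0∞)⁻¹ *
        (n.choose i : ℝ≥0∞) =
      ENNReal.ofReal (Real.exp (-(ν₁ Set.univ).toReal)) *
        ENNReal.ofReal (Real.exp (-(ν₂ Set.univ).toReal)) *
        ((n.choose i : ℝ≥0∞) * (n.factorial : ℝ≥0∞)⁻¹) := by ring
    _ = _ := by
      rw [hch]
      ring

theorem lint_un {G : Finset α → ℝ≥0∞} (hG : Measurable G) :
    (Measurable fun F => ∫⁻ F', G (un F F') ∂(poi ν₂)) ∧
    ∫⁻ F, G F ∂(poi (ν₁ + ν₂)) = ∫⁻ F, ∫⁻ F', G (un F F') ∂(poi ν₂) ∂(poi ν₁) := by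
  have e1 : ∀ F, ∫⁻ F', G (un F F') ∂(poi ν₂) =
      ∑' l, cn ν₂ l * aa ν₂ (fun F' => G (un F F')) l := fun F => lint_poi ν₂ (meas_un hG F)
  have m1 : Measurable fun F => ∑' l, cn ν₂ l * aa ν₂ (fun F' => G (un F F')) l :=
    Measurable.ennreal_tsum fun l => (meas_aa_un ν₂ hG l).const_mul _
  simp only [e1]
  refine ⟨m1, ?_⟩
  rw [lint_poi _ hG, lint_poi ν₁ m1]
  have e2 : ∀ k, ∫⁻ y : Fin k → α, (∑' l, cn ν₂ l * aa ν₂ (fun F' => G (un (im k y) F')) l)
      ∂(Measure.pi fun _ => ν₁) = ∑' l, cn ν₂ l * bb ν₁ ν₂ G k l := by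
    intro k
    have hm' : ∀ l, Measurable fun y : Fin k → α => aa ν₂ (fun F' => G (un (im k y) F')) l :=
      fun l => (meas_aa_un ν₂ hG l).comp (meas_im k)
    rw [lintegral_tsum (fun l => ((hm' l).const_mul _).aemeasurable)]
    refine tsum_congr fun l => ?_
    exact lintegral_const_mul _ (hm' l)
  have e3 : ∀ k, cn ν₁ k * ∑' l, cn ν₂ l * bb ν₁ ν₂ G k l =
      ∑' l, cn ν₁ k * (cn ν₂ l * bb ν₁ ν₂ G k l) := fun k => ENNReal.tsum_mul_left.symm
  simp only [e2, e3]
  rw [tsum_anti]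
  refine tsum_congr fun n => ?_
  have hs := split' ν₁ ν₂ n G hG
  unfold aa at hs
  rw [hs, Finset.mul_sum]
  refine Finset.sum_congr rfl fun ij hij => ?_
  rw [Finset.HasAntidiagonal.mem_antidiagonal] at hij
  rw [← mul_assoc, cn_choose ν₁ ν₂ hij, mul_assoc]

end gen

open Classical in
/-- NVP from MB only -/
theorem t_NVP' (hMB : S_MB) : S_NVP := by
  intro d B₁ B₂ hd hB₁ hB₂ hv₁ hv₂ hdis G hG
  have key : ∀ F F' : Finset (X d), F ∪ F' = un F F' := by
    intro F F'
    ext a
    simp [un]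
  obtain ⟨hs, -, -, hB⟩ := hMB d hd
  have := hs
  have hf₁ := (hB B₁ hB₁ hv₁).1
  have hf₂ := (hB B₂ hB₂ hv₂).1
  have hm : mB (B₁ ∪ B₂) = mB B₁ + mB B₂ := by
    unfold mB
    rw [Measure.restrict_union hdis hB₂, Measure.add_prod]
  simp only [key]
  rw [hm]
  refine ⟨fun F' => ?_, (lint_un (mB B₁) (mB B₂) hG).1, (lint_un (mB B₁) (mB B₂) hG).2⟩
  have h1 : ∀ F, un F F' = un F' F := fun F => un_comm F F'
  simp only [h1]
  exact meas_un hG F'

theorem t_NVP : S_PO1 → S_PO2 → S_SUP → S_IND → S_MB → S_MEAS → S_NVP :=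
  fun _ _ _ _ h _ => t_NVP' h

end Run7.h975.Met
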